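import Pool.Agent.H848R3.RI.Final

/-!
Rigid synchrony patterns of hyperbolic periodic orbits of network vector fields are balanced: the
core of the argument, on top of the library `Pool.Agent.H848R3.RI`.
-/

set_option autoImplicit false
set_option linter.unusedSectionVars false
set_option linter.unusedVariables false
open Topology Filter Set MeasureTheory

namespace Pool.Agent.TH309.RigidSync

open Pool.Agent.H848R3.RI

noncomputable section

variable {N : Network} {V : N.SType → Type} [∀ τ, NormedAddCommGroup (V τ)]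
  [∀ τ, NormedSpace ℝ (V τ)]

/-- nodes that are not synchronous on `x` are not synchronous on any curve close to `x` -/
lemma separated {x : ℝ → Ph N V} {T : ℝ} (hT : 0 < T) (hper : ∀ t, x (t + T) = x t)
    (a b : N.Node) (hab : ¬ Sync x a b) :
    ∀ᶠ δ' : ℝ in 𝓝[>] 0, ∀ x' : ℝ → Ph N V, (∀ t ∈ Icc 0 T, ‖x' t - x t‖ < δ') →
      ¬ Sync x' a b := by
  by_cases h : N.sp a = N.sp b
  · have hex : ∃ t ∈ Icc 0 T, cst h (x t a) ≠ x t b := by
      unfold Sync at hab
      push Not at hab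
      obtain ⟨t, ht⟩ := hab
      have hp : Function.Periodic x T := hper
      obtain ⟨s, hs, hs2⟩ := hp.exists_mem_Ico₀ hT t
      refine ⟨s, ⟨hs.1, hs.2.le⟩, ?_⟩
      rw [hs2] at ht
      exact fun h2 => ht ((st_of h).2 h2)
    obtain ⟨t, ht, hne⟩ := hex
    have hpos : 0 < ‖cst h (x t a) - x t b‖ / 2 := by
      have : cst h (x t a) - x t b ≠ 0 := sub_ne_zero.2 hne
      positivity
    filter_upwards [Ioo_mem_nhdsGT hpos] with δ' hδ' x' hx' hs
    have h1 := hx' t ht
    have h2 : cst h (x' t a) = x' t b := (st_of h).1 (hs t)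
    have h3 : cst h (x t a) - x t b = (x' t - x t) b - cst h ((x' t - x t) a) := by
      rw [Pi.sub_apply, Pi.sub_apply, map_sub, h2]; abel
    have h4 : ‖cst h (x t a) - x t b‖ ≤ ‖x' t - x t‖ + ‖x' t - x t‖ := by
      rw [h3]
      refine (norm_sub_le _ _).trans (add_le_add (norm_le_pi_norm _ b) ?_)
      rw [norm_cst]
      exact norm_le_pi_norm _ a
    have h5 := hδ'.2
    linarith
  · refine Eventually.of_forall fun δ' x' _ hs => h (st_iff.1 (hs 0)).1

lemma Cls.mono {f f' : Ph N V → Ph N V} {x x' : ℝ → Ph N V} {T T' δ δ' : ℝ} (h : δ' ≤ δ)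
    (hc : Cls f x T δ' f' x' T') : Cls f x T δ f' x' T' := by
  obtain ⟨δ'', h1, h2⟩ := hc.near
  exact ⟨hc.adm, hc.dif, ⟨δ'', h1.trans_le h, h2⟩, hc.orb, hc.nd, hc.per.trans_le h,
    fun t ht => (hc.close t ht).trans_le h⟩

/-- Rigid synchrony patterns are balanced. -/
theorem rigid_sync [∀ τ, FiniteDimensional ℝ (V τ)] [∀ τ, Nontrivial (V τ)]
    {f : Ph N V → Ph N V} {x : ℝ → Ph N V} {T δ : ℝ} (hf : Admissible f) (hx : PerOrb f x T)
    (hnd : NDeg f x T) (hδ : 0 < δ)
    (hrig : ∀ f' x' T', Cls f x T δ f' x' T' → ∀ a b, Sync x a b → Sync x' a b)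
    (c d : N.Node) (hcd : Sync x c d) :
    ∃ β : InputIso N c d, ∀ e : N.In c, Sync x (N.tail e.1) (N.tail (β.toEquiv e).1) := by
  -- a smaller tolerance that separates the nodes that are not synchronous
  have hsep : ∀ᶠ δ' : ℝ in 𝓝[>] 0, ∀ a b, ¬ Sync x a b → ∀ x' : ℝ → Ph N V,
      (∀ t ∈ Icc 0 T, ‖x' t - x t‖ < δ') → ¬ Sync x' a b := by
    rw [eventually_all]; intro a
    rw [eventually_all]; intro b
    by_cases hab : Sync x a b
    · exact Eventually.of_forall fun δ' h => absurd hab h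
    · filter_upwards [separated hx.pos hx.per a b hab] with δ' h _
      exact h
  have hsmall : ∀ᶠ δ' : ℝ in 𝓝[>] 0, δ' ∈ Ioo 0 δ := Ioo_mem_nhdsGT hδ
  obtain ⟨δ', ⟨hδ'0, hδ'δ⟩, hsep'⟩ := (hsmall.and hsep).exists
  have hC : Cls f x T δ' f x T :=
    { adm := hf
      dif := by
        have h0 : (fun z => f z - f z) = fun _ : Ph N V => (0 : Ph N V) := by
          funext z; exact sub_self _
        rw [h0]; exact SmAdm.zero
      near := ⟨0, hδ'0, fun z => by simp⟩
      orb := hx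
      nd := hnd
      per := by simpa using hδ'0
      close := fun t _ => by simpa using hδ'0 }
  obtain ⟨f₁, x₁, T₁, t₀, hM⟩ := exists_max hC
  have hmatch : ∀ a b, st (x₁ t₀) a = st (x₁ t₀) b → Match (x₁ t₀) a b := fun a b h =>
    match_all hx.continuous hM hf.smooth a b h
  have hcd₁ : Sync x₁ c d := hrig _ _ _ (Cls.mono hδ'δ.le hM.cls) c d hcd
  obtain ⟨β, hβ⟩ := hmatch c d (hcd₁ t₀)
  refine ⟨β, fun e => ?_⟩
  have h1 : Sync x₁ (N.tail e.1) (N.tail (β.toEquiv e).1) := fun t =>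
    invariant hM.cls.adm hM.cls.orb.sol hM.cls.orb.per hM.cls.orb.pos hmatch _ _ (hβ e) t
  by_contra hno
  exact hsep' _ _ hno x₁ hM.cls.close h1

end

end Pool.Agent.TH309.RigidSync
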